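import Mathlib
import Pool.Agent.Lib.MP_43d240_ag.FRZ.Defs
import Pool.Agent.Lib.MP_43d240_ag.Frozen.Defs

/-!
# The algebraic model of the cover: statement
-/

set_option linter.all false
set_option autoImplicit false

namespace Pool.Agent.Lib.MP_43d240_ag.H21

open FRZ AlgebraicGeometry CategoryTheory Pool.Agent.PI

/-- The algebraic model of the cover (helper72). -/
def ModelStatement : Prop :=
  ∀ (k : Type) [Field k] [IsAlgClosed k] [CharZero k] (f : Idx → MvPolynomial (Fin 4) k),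
    (∀ i, (f i).IsHomogeneous 6) → GP f →
    ∃ (K : Type) (_ : Field K) (_ : Algebra k K) (M : ℕ) (y : Fin (M + 1) → K),
      (∀ i, y i ≠ 0) ∧ (∀ i, Algebra.Smooth k (Ch k y i)) ∧
      (∀ i, ringKrullDim (Ch k y i) = 3) ∧ (∀ i, IsFractionRing (Ch k y i) K) ∧
      ∃ (ψ : MvPolynomial (Fin 3) k →+* K) (r : Idx → K),
        Function.Injective ψ ∧
        (∀ j l, r (j, l) ^ 2 * ψ (deh (f (j, 0))) = ψ (deh (f (j, l)))) ∧
        (∀ L : Subfield K, (∀ a, ψ a ∈ L) → (∀ i, r i ∈ L) → L = ⊤) ∧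
        ∀ (i : Idx) (j : Fin (M + 1)), ∃ (u : (Ch k y j)ˣ) (c : K), c ≠ 0 ∧
          ψ (deh (f i)) = (u : Ch k y j) * c ^ 2

end Pool.Agent.Lib.MP_43d240_ag.H21
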