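import Mathlib
import Pool.Agent.Lib.MP_43d240_ag.FRZ.Defs

/-!
# SHELL: the charts `Away (gr k y) (T i)` are the subalgebras `Ch k y i = k[y_j / y_i]` of `K`
-/

set_option linter.all false
set_option autoImplicit false

namespace Pool.Agent.Lib.MP_43d240_ag.H21

open FRZ Polynomial HomogeneousLocalization

variable (k : Type) {K : Type} [Field k] [Field K] [Algebra k K] {M : ℕ} (y : Fin (M + 1) → K)

/-- Evaluation at `τ = 1`. -/
noncomputable def ev1 : SB k y →ₐ[k] K :=
  ((Polynomial.aeval (1 : K)).restrictScalars k).comp (SB k y).val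

lemma ev1_apply (b : SB k y) : ev1 k y b = (b : K[X]).eval 1 := by
  simp [ev1, Polynomial.aeval_def, Polynomial.eval₂_eq_eval_map]

@[simp] lemma ev1_T (i : Fin (M + 1)) : ev1 k y (T k y i) = y i := by
  rw [ev1_apply, coe_T]; simp

lemma coe_eq_of_mem_gr {n : ℕ} {b : SB k y} (hb : b ∈ gr k y n) :
    (b : K[X]) = monomial n (ev1 k y b) := by
  obtain ⟨c, hc⟩ := hb
  rw [ev1_apply, hc]
  simp

lemma ev1_ne_zero {n : ℕ} {b : SB k y} (hb : b ∈ gr k y n) (h0 : b ≠ 0) : ev1 k y b ≠ 0 := by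
  intro h
  apply h0
  apply Subtype.ext
  rw [coe_eq_of_mem_gr k y hb, h]
  simp

lemma eq_zero_of_ev1 {n : ℕ} {b : SB k y} (hb : b ∈ gr k y n) (h0 : ev1 k y b = 0) : b = 0 := by
  by_contra h
  exact ev1_ne_zero k y hb h h0

/-- The dehomogenisation `a / f ^ n ↦ a(1) / f(1) ^ n`. -/
noncomputable def phi (f : SB k y) (hf : ev1 k y f ≠ 0) : Away (gr k y) f →+* K :=
  (Localization.awayLift (ev1 k y).toRingHom f (isUnit_iff_ne_zero.mpr hf)).comp
    (algebraMap (Away (gr k y) f) (Localization.Away f))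

lemma phi_mk {f : SB k y} (hf : ev1 k y f ≠ 0) {m : ℕ} (hfm : f ∈ gr k y m) (n : ℕ) (a : SB k y)
    (ha : a ∈ gr k y (n • m)) :
    phi k y f hf (Away.mk (gr k y) hfm n a ha) = ev1 k y a / ev1 k y f ^ n := by
  have h1 : phi k y f hf (Away.mk (gr k y) hfm n a ha) =
      Localization.awayLift (ev1 k y).toRingHom f (isUnit_iff_ne_zero.mpr hf)
        (Localization.mk a ⟨f ^ n, ⟨n, rfl⟩⟩) := rfl
  rw [h1, eq_div_iff (pow_ne_zero _ hf), mul_comm]
  have h2 : ev1 k y f ^ n = Localization.awayLift (ev1 k y).toRingHom f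
      (isUnit_iff_ne_zero.mpr hf) (algebraMap _ _ (f ^ n)) := by
    rw [Localization.awayLift, IsLocalization.Away.lift_eq]
    simp
  have h3 : ev1 k y a = Localization.awayLift (ev1 k y).toRingHom f
      (isUnit_iff_ne_zero.mpr hf) (algebraMap _ _ a) := by
    rw [Localization.awayLift, IsLocalization.Away.lift_eq]
    simp
  rw [h2, ← map_mul, h3]
  congr 1
  rw [← Localization.mk_one_eq_algebraMap, ← Localization.mk_one_eq_algebraMap,
    Localization.mk_mul, one_mul, Localization.mk_eq_mk_iff, Localization.r_iff_exists]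
  exact ⟨1, by simp [mul_comm]⟩

lemma phi_injective {f : SB k y} (hf : ev1 k y f ≠ 0) {m : ℕ} (hfm : f ∈ gr k y m) :
    Function.Injective (phi k y f hf) := by
  rw [injective_iff_map_eq_zero]
  intro x hx
  obtain ⟨n, a, ha, rfl⟩ := Away.mk_surjective (gr k y) hfm x
  rw [phi_mk, div_eq_zero_iff, or_iff_left (pow_ne_zero _ hf)] at hx
  have := eq_zero_of_ev1 k y ha hx
  subst this
  apply HomogeneousLocalization.val_injective
  rw [Away.val_mk, Localization.mk_zero, HomogeneousLocalization.val_zero]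

/-- Compatibility of the dehomogenisations. -/
lemma phi_awayMap {f g : SB k y} {m e : ℕ} (hfm : f ∈ gr k y m) (hg : g ∈ gr k y e) {x : SB k y}
    (hx : x = f * g) (hf0 : ev1 k y f ≠ 0) (hx0 : ev1 k y x ≠ 0) (z : Away (gr k y) f) :
    phi k y x hx0 (awayMap (gr k y) hg hx z) = phi k y f hf0 z := by
  obtain ⟨n, a, ha, rfl⟩ := Away.mk_surjective (gr k y) hfm z
  rw [awayMap_mk, phi_mk, phi_mk]
  subst hx
  have hg0 : ev1 k y g ≠ 0 := fun h => hx0 (by rw [map_mul, h, mul_zero])
  rw [map_mul, map_mul, map_pow, mul_pow]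
  rw [mul_div_mul_right _ _ (pow_ne_zero _ hg0)]

/-- Homogeneous polynomials scale. -/
lemma aeval_homogeneous {n : ℕ} {p : MvPolynomial (Fin (M + 1)) k} (hp : p.IsHomogeneous n)
    (c : K) (z : Fin (M + 1) → K) :
    MvPolynomial.aeval (fun j => c * z j) p = c ^ n * MvPolynomial.aeval z p := by
  rw [MvPolynomial.aeval_def, MvPolynomial.aeval_def, MvPolynomial.eval₂_eq',
    MvPolynomial.eval₂_eq', Finset.mul_sum]
  refine Finset.sum_congr rfl fun d hd => ?_
  have h1 : ∑ i, d i = n := by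
    have h0 : (Finsupp.weight (1 : Fin (M + 1) → ℕ)) d = n :=
      hp (MvPolynomial.mem_support_iff.mp hd)
    have h2 : d.degree = n := by rw [Finsupp.degree_eq_weight_one]; exact h0
    rw [← h2, Finsupp.degree_eq_sum]
  simp only [mul_pow]
  rw [Finset.prod_mul_distrib, Finset.prod_pow_eq_pow_sum, h1]
  ring

lemma ev1_ev (p : MvPolynomial (Fin (M + 1)) k) :
    ev1 k y (ev k y p) = MvPolynomial.aeval y p := by
  have : (ev1 k y).comp (ev k y) = MvPolynomial.aeval y := by
    apply MvPolynomial.algHom_ext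
    intro i
    simp [ev]
  rw [← this]
  rfl

lemma exists_homogeneous {n : ℕ} {b : SB k y} (hb : b ∈ gr k y n) :
    ∃ p : MvPolynomial (Fin (M + 1)) k, p.IsHomogeneous n ∧ ev k y p = b := by
  obtain ⟨p, rfl⟩ := ev_surjective k y b
  refine ⟨MvPolynomial.homogeneousComponent n p,
    MvPolynomial.homogeneousComponent_isHomogeneous n p, ?_⟩
  have h1 : ev k y p = ∑ i ∈ Finset.range (p.totalDegree + 1),
      ev k y (MvPolynomial.homogeneousComponent i p) := by
    rw [← map_sum, MvPolynomial.sum_homogeneousComponent]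
  have h2 : comp k y n (ev k y p) = ev k y p := by
    rw [comp_of_mem k y hb, if_pos rfl]
  rw [← h2]
  conv_rhs => rw [h1]
  rw [map_sum]
  simp only [comp_of_mem k y
    (ev_homogeneous k y (MvPolynomial.homogeneousComponent_isHomogeneous _ p))]
  rw [Finset.sum_ite_eq]
  split_ifs with h
  · rfl
  · rw [MvPolynomial.homogeneousComponent_eq_zero _ _ (by
        rw [Finset.mem_range, not_lt] at h
        omega), map_zero]

lemma ev1_div_mem_Ch {i : Fin (M + 1)} (hi : y i ≠ 0) {n : ℕ} {b : SB k y} (hb : b ∈ gr k y n) :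
    ev1 k y b / y i ^ n ∈ Ch k y i := by
  obtain ⟨p, hp, rfl⟩ := exists_homogeneous k y hb
  rw [ev1_ev]
  have h1 : MvPolynomial.aeval y p = y i ^ n * MvPolynomial.aeval (fun j => y j / y i) p := by
    rw [← aeval_homogeneous k hp]
    congr 2
    funext j
    rw [mul_div_cancel₀ _ hi]
  rw [h1, mul_div_cancel_left₀ _ (pow_ne_zero _ hi)]
  rw [Ch, Algebra.adjoin_range_eq_range_aeval]
  exact ⟨p, rfl⟩

lemma range_phi_T {i : Fin (M + 1)} (hi : y i ≠ 0) (hi' : ev1 k y (T k y i) ≠ 0) (z : K) :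
    (∃ x, phi k y (T k y i) hi' x = z) ↔ z ∈ Ch k y i := by
  constructor
  · rintro ⟨x, rfl⟩
    obtain ⟨n, a, ha, rfl⟩ := Away.mk_surjective (gr k y) (T_mem k y i) x
    rw [phi_mk, ev1_T]
    rw [smul_eq_mul, mul_one] at ha
    exact ev1_div_mem_Ch k y hi ha
  · intro hz
    rw [Ch] at hz
    induction hz using Algebra.adjoin_induction with
    | mem x hx =>
      obtain ⟨j, rfl⟩ := hx
      refine ⟨Away.mk (gr k y) (T_mem k y i) 1 (T k y j) (by simpa using T_mem k y j), ?_⟩
      rw [phi_mk, ev1_T, ev1_T, pow_one]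
    | algebraMap r =>
      refine ⟨Away.mk (gr k y) (T_mem k y i) 0 (algebraMap k _ r) ?_, ?_⟩
      · rw [zero_smul]
        exact SetLike.algebraMap_mem_graded (gr k y) r
      · rw [phi_mk]
        simp
    | add x y _ _ hx hy =>
      obtain ⟨a, rfl⟩ := hx
      obtain ⟨b, rfl⟩ := hy
      exact ⟨a + b, map_add _ _ _⟩
    | mul x y _ _ hx hy =>
      obtain ⟨a, rfl⟩ := hx
      obtain ⟨b, rfl⟩ := hy
      exact ⟨a * b, map_mul _ _ _⟩

/-- The chart isomorphism. -/
noncomputable def chartEquiv {i : Fin (M + 1)} (hi : y i ≠ 0) :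
    Away (gr k y) (T k y i) ≃+* Ch k y i :=
  have hi' : ev1 k y (T k y i) ≠ 0 := by rw [ev1_T]; exact hi
  RingEquiv.ofBijective
    ((phi k y (T k y i) hi').codRestrict (Ch k y i)
      (fun x => (range_phi_T k y hi hi' _).mp ⟨x, rfl⟩))
    ⟨fun a b h => phi_injective k y hi' (T_mem k y i) (congrArg Subtype.val h),
      fun z => by
        obtain ⟨x, hx⟩ := (range_phi_T k y hi hi' z).mpr z.2
        exact ⟨x, Subtype.ext hx⟩⟩

lemma coe_chartEquiv {i : Fin (M + 1)} (hi : y i ≠ 0) (hi' : ev1 k y (T k y i) ≠ 0)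
    (x : Away (gr k y) (T k y i)) :
    ((chartEquiv k y hi x : Ch k y i) : K) = phi k y (T k y i) hi' x := rfl

/-- The structure map `k → (SB)_0`. -/
noncomputable def kZero : k →+* gr k y 0 := algebraMap k (gr k y 0)

lemma chartEquiv_algebraMap {i : Fin (M + 1)} (hi : y i ≠ 0) (c : k) :
    chartEquiv k y hi (fromZeroRingHom (gr k y) _ (kZero k y c)) = algebraMap k (Ch k y i) c := by
  have hi' : ev1 k y (T k y i) ≠ 0 := by rw [ev1_T]; exact hi
  apply Subtype.ext
  rw [coe_chartEquiv k y hi hi']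
  have h1 : fromZeroRingHom (gr k y) (Submonoid.powers (T k y i)) (kZero k y c) =
      Away.mk (gr k y) (T_mem k y i) 0 (algebraMap k _ c) (by
        rw [zero_smul]; exact SetLike.algebraMap_mem_graded (gr k y) c) := by
    apply HomogeneousLocalization.val_injective
    rw [Away.val_mk]
    show Localization.mk _ _ = Localization.mk _ _
    congr 1
  rw [h1, phi_mk]
  simp

/-- S4 for the chart. -/
lemma smooth_chart {i : Fin (M + 1)} (hi : y i ≠ 0) (h : Algebra.Smooth k (Ch k y i)) :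
    ((fromZeroRingHom (gr k y) (Submonoid.powers (T k y i))).comp (kZero k y)).Smooth := by
  have h1 : (algebraMap k (Ch k y i)).Smooth := (RingHom.smooth_algebraMap).mpr h
  have h2 : (fromZeroRingHom (gr k y) (Submonoid.powers (T k y i))).comp (kZero k y) =
      (chartEquiv k y hi).symm.toRingHom.comp (algebraMap k (Ch k y i)) := by
    ext1 c
    rw [RingHom.comp_apply, RingHom.comp_apply, ← chartEquiv_algebraMap k y hi c]
    exact ((chartEquiv k y hi).symm_apply_apply _).symm
  rw [h2]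
  exact RingHom.Smooth.propertyIsLocal.respectsIso.1 _ _ h1

/-- S5 for the chart. -/
lemma krullDim_chart {i : Fin (M + 1)} (hi : y i ≠ 0) {d : WithBot ℕ∞}
    (h : ringKrullDim (Ch k y i) = d) : ringKrullDim (Away (gr k y) (T k y i)) = d := by
  rw [ringKrullDim_eq_of_ringEquiv (chartEquiv k y hi), h]

end Pool.Agent.Lib.MP_43d240_ag.H21
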