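import Mathlib

/-!
# SHELL, S5: Krull dimension of a space covered by open subspaces of the same dimension
-/

set_option autoImplicit false

namespace Pool.Agent.Lib.MP_43d240_ag.H21

open Topology TopologicalSpace Order

/-- The Krull dimension can be bounded on an open cover. -/
theorem topologicalKrullDim_le_of_openCover {X : Type*} [TopologicalSpace X] {ι : Type*}
    (Y : ι → Type*) [∀ i, TopologicalSpace (Y i)] (f : ∀ i, Y i → X)
    (hf : ∀ i, IsOpenEmbedding (f i)) (hcov : ∀ x, ∃ i, x ∈ Set.range (f i))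
    (d : WithBot ℕ∞) (hd : ∀ i, topologicalKrullDim (Y i) ≤ d) :
    topologicalKrullDim X ≤ d := by
  unfold topologicalKrullDim
  rcases isEmpty_or_nonempty (IrreducibleCloseds X) with h | h
  · rw [Order.krullDim_eq_bot]
    exact bot_le
  rw [Order.krullDim_eq_iSup_coheight_of_nonempty]
  have key : ∀ Z : IrreducibleCloseds X, ((Order.coheight Z : ℕ∞) : WithBot ℕ∞) ≤ d := by
    intro Z
    obtain ⟨z, hz⟩ := Z.2.nonempty
    obtain ⟨i, y, hy⟩ := hcov z
    let e := IrreducibleCloseds.orderIsoOfIsOpenEmbedding (f i) (hf i)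
    let V : {V : IrreducibleCloseds X | (f i ⁻¹' (V : Set X)).Nonempty} :=
      ⟨Z, ⟨y, by rw [Set.mem_preimage, hy]; exact hz⟩⟩
    have hZ : IrreducibleCloseds.map (f i) (hf i).continuous (e.symm V) = Z := by
      have := congrArg Subtype.val (e.apply_symm_apply V)
      exact this
    rw [← hZ, (hf i).coheight_map]
    exact (Order.coheight_le_krullDim _).trans (hd i)
  obtain ⟨Z0⟩ := h
  have hd0 : d ≠ ⊥ := by
    intro h0
    have := key Z0
    rw [h0] at this
    exact absurd this (by simp)
  obtain ⟨d', rfl⟩ := WithBot.ne_bot_iff_exists.mp hd0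
  rw [WithBot.coe_le_coe]
  exact iSup_le fun Z => WithBot.coe_le_coe.mp (key Z)

/-- The Krull dimension of a space covered by open subspaces of dimension `d`. -/
theorem topologicalKrullDim_eq_of_openCover {X : Type*} [TopologicalSpace X] {ι : Type*}
    [Nonempty ι] (Y : ι → Type*) [∀ i, TopologicalSpace (Y i)] (f : ∀ i, Y i → X)
    (hf : ∀ i, IsOpenEmbedding (f i)) (hcov : ∀ x, ∃ i, x ∈ Set.range (f i))
    (d : WithBot ℕ∞) (hd : ∀ i, topologicalKrullDim (Y i) = d) :
    topologicalKrullDim X = d := by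
  refine le_antisymm (topologicalKrullDim_le_of_openCover Y f hf hcov d fun i => (hd i).le) ?_
  obtain ⟨i⟩ := ‹Nonempty ι›
  rw [← hd i]
  exact (hf i).isInducing.topologicalKrullDim_le

end Pool.Agent.Lib.MP_43d240_ag.H21
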