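import Mathlib
import Pool.Agent.Lib.MP_43d240_ag.H21.ShellDim

/-!
# SHELL, S4 and S5: smoothness and dimension of `Proj` of a graded ring from its charts
-/

set_option autoImplicit false

namespace Pool.Agent.Lib.MP_43d240_ag.H21

open AlgebraicGeometry CategoryTheory HomogeneousLocalization

universe u

variable {σ : Type*} {A : Type u} [CommRing A] [SetLike σ A] [AddSubgroupClass σ A]
  (𝒜 : ℕ → σ) [GradedRing 𝒜]

/-- S5: dimension of `Proj`. -/
theorem topologicalKrullDim_Proj {ι : Type*} [Nonempty ι] (s : ι → A) (m : ι → ℕ)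
    (hs : ∀ i, s i ∈ 𝒜 (m i)) (hm : ∀ i, 0 < m i) (hcov : ⨆ i, Proj.basicOpen 𝒜 (s i) = ⊤)
    (d : WithBot ℕ∞) (hd : ∀ i, ringKrullDim (Away 𝒜 (s i)) = d) :
    topologicalKrullDim (Proj 𝒜) = d := by
  refine topologicalKrullDim_eq_of_openCover (fun i => (Spec (.of (Away 𝒜 (s i))) : Scheme))
    (fun i => Proj.awayι 𝒜 (s i) (hs i) (hm i)) (fun i => (Proj.awayι 𝒜 (s i) (hs i) (hm i)).isOpenEmbedding)
    ?_ d ?_
  · intro x
    have hx : x ∈ ⨆ i, Proj.basicOpen 𝒜 (s i) := by rw [hcov]; trivial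
    obtain ⟨i, hi⟩ := TopologicalSpace.Opens.mem_iSup.mp hx
    rw [← Proj.opensRange_awayι 𝒜 (s i) (hs i) (hm i)] at hi
    exact ⟨i, hi⟩
  · intro i
    exact (PrimeSpectrum.topologicalKrullDim_eq_ringKrullDim (R := Away 𝒜 (s i))).trans (hd i)

/-- The open cover of `Proj` by the charts of a covering family. -/
noncomputable def projCover {ι : Type*} (s : ι → A) (m : ι → ℕ)
    (hs : ∀ i, s i ∈ 𝒜 (m i)) (hm : ∀ i, 0 < m i) (hcov : ⨆ i, Proj.basicOpen 𝒜 (s i) = ⊤) :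
    (Proj 𝒜).AffineOpenCover where
  I₀ := ι
  X i := .of (Away 𝒜 (s i))
  f i := Proj.awayι 𝒜 (s i) (hs i) (hm i)
  idx x := (TopologicalSpace.Opens.mem_iSup.mp (hcov.ge (Set.mem_univ x))).choose
  covers x := by
    change x ∈ (Proj.awayι 𝒜 _ _ _).opensRange
    rw [Proj.opensRange_awayι]
    exact (TopologicalSpace.Opens.mem_iSup.mp (hcov.ge (Set.mem_univ x))).choose_spec

/-- S4: smoothness of `Proj 𝒜 → Spec R` given through the degree zero part. -/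
theorem smooth_Proj {R : Type u} [CommRing R] (φ : R →+* 𝒜 0) {ι : Type*} (s : ι → A) (m : ι → ℕ)
    (hs : ∀ i, s i ∈ 𝒜 (m i)) (hm : ∀ i, 0 < m i) (hcov : ⨆ i, Proj.basicOpen 𝒜 (s i) = ⊤)
    (hsm : ∀ i, ((fromZeroRingHom 𝒜 (Submonoid.powers (s i))).comp φ).Smooth) :
    Smooth (Proj.toSpecZero 𝒜 ≫ Spec.map (CommRingCat.ofHom φ)) := by
  rw [IsZariskiLocalAtSource.iff_of_openCover (P := @Smooth.{u}) (projCover 𝒜 s m hs hm hcov).openCover]
  intro i
  change Smooth (Proj.awayι 𝒜 (s i) (hs i) (hm i) ≫ Proj.toSpecZero 𝒜 ≫ Spec.map (CommRingCat.ofHom φ))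
  rw [Proj.awayι_toSpecZero_assoc, ← Spec.map_comp]
  rw [HasRingHomProperty.Spec_iff (P := @Smooth.{u})]
  exact hsm i

end Pool.Agent.Lib.MP_43d240_ag.H21
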