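import Mathlib
import Pool.Agent.Lib.MP_43d240_ag.H21.Bridge
import Pool.Agent.Lib.MP_43d240_ag.H21.ShellProj
import Pool.Agent.Lib.MP_43d240_ag.H60.ProjField
import Pool.Agent.Lib.MP_43d240_ag.Frozen.Defs

/-!
# SHELL: final theorem

From field data `y : Fin (M + 1) → K` (nonzero, charts `k[y_j / y_i]`, `i ∈ I`, smooth of dimension
three with fraction field `K`, and covering) to the scheme `X = Proj k[y_0 τ, …, y_M τ]` with
`IsModel k X p`, a ring isomorphism `θ : X.functionField ≃+* K`, and the transfer of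
`unit times a square` from the charts to the stalks.
-/

set_option linter.all false
set_option autoImplicit false

namespace Pool.Agent.Lib.MP_43d240_ag.H21

open FRZ Polynomial HomogeneousLocalization AlgebraicGeometry CategoryTheory PoolPI.H60

variable (k : Type) {K : Type} [Field k] [Field K] [Algebra k K] {M : ℕ} (y : Fin (M + 1) → K)

/-- The compatible family of dehomogenisations. -/
noncomputable def chartMaps : ChartMaps (gr k y) K where
  map f := phi k y f.el (ev1_ne_zero k y f.mem f.ne)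
  inj f := phi_injective k y _ f.mem
  comp f x g m hg hx := by
    ext z
    exact phi_awayMap k y f.mem hg hx (ev1_ne_zero k y f.mem f.ne) (ev1_ne_zero k y x.mem x.ne) z

lemma T_ne {i : Fin (M + 1)} (hi : y i ≠ 0) : T k y i ≠ 0 := by
  intro h
  apply hi
  rw [← ev1_T k y i, h, map_zero]

/-- The homogeneous element `T i`. -/
noncomputable abbrev hT {i : Fin (M + 1)} (hi : y i ≠ 0) : HPos (gr k y) where
  el := T k y i
  deg := 1
  mem := T_mem k y i
  pos := one_pos
  ne := T_ne k y hi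

/-- The structure morphism. -/
noncomputable def str : Proj (gr k y) ⟶ Spec (CommRingCat.of k) :=
  Proj.toSpecZero (gr k y) ≫ Spec.map (CommRingCat.ofHom (kZero k y))

theorem smooth_str (I : Set (Fin (M + 1))) (hy : ∀ i, y i ≠ 0)
    (hcov : ⨆ i : I, Proj.basicOpen (gr k y) (T k y i) = ⊤)
    (hsm : ∀ i ∈ I, Algebra.Smooth k (Ch k y i)) : Smooth (str k y) :=
  smooth_Proj (gr k y) (kZero k y) (fun i : I => T k y i) (fun _ => 1)
    (fun i => T_mem k y i) (fun _ => one_pos) hcov
    (fun i => smooth_chart k y (hy i) (hsm i i.2))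

theorem krullDim_Proj (I : Set (Fin (M + 1))) (hI : I.Nonempty) (hy : ∀ i, y i ≠ 0)
    (hcov : ⨆ i : I, Proj.basicOpen (gr k y) (T k y i) = ⊤) (d : WithBot ℕ∞)
    (hd : ∀ i ∈ I, ringKrullDim (Ch k y i) = d) : topologicalKrullDim (Proj (gr k y)) = d := by
  have : Nonempty I := hI.to_subtype
  exact topologicalKrullDim_Proj (gr k y) (fun i : I => T k y i) (fun _ => 1)
    (fun i => T_mem k y i) (fun _ => one_pos) hcov d
    (fun i => krullDim_chart k y (hy i) (hd i i.2))

/-- S6 in the language of `K`. -/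
theorem exists_theta [IsIntegral (Proj (gr k y))] (I : Set (Fin (M + 1))) (hI : I.Nonempty)
    (hy : ∀ i, y i ≠ 0) (hcov : ⨆ i : I, Proj.basicOpen (gr k y) (T k y i) = ⊤)
    (hfr : ∀ i ∈ I, IsFractionRing (Ch k y i) K) :
    ∃ θ : (Proj (gr k y)).functionField ≃+* K,
      ∀ x : Proj (gr k y), ∃ i ∈ I, ∃ p : Ideal (Ch k y i), p.IsPrime ∧
        ∀ z : K, (∃ s : (Proj (gr k y)).presheaf.stalk x,
          θ (algebraMap ((Proj (gr k y)).presheaf.stalk x) (Proj (gr k y)).functionField s) = z) ↔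
          ∃ a b : Ch k y i, b ∉ p ∧ z * b = a := by
  obtain ⟨i0, hi0⟩ := hI
  have h0 : ∀ z : K, ∃ a b : Away (gr k y) (hT k y (hy i0)).el, b ≠ 0 ∧
      z * (chartMaps k y).map (hT k y (hy i0)) b = (chartMaps k y).map (hT k y (hy i0)) a := by
    intro z
    have := hfr i0 hi0
    obtain ⟨a, b, hb, rfl⟩ := IsFractionRing.div_surjective (A := Ch k y i0) z
    refine ⟨(chartEquiv k y (hy i0)).symm a, (chartEquiv k y (hy i0)).symm b, ?_, ?_⟩
    · intro h
      have h' := congrArg (chartEquiv k y (hy i0)) h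
      rw [RingEquiv.apply_symm_apply, map_zero] at h'
      exact nonZeroDivisors.ne_zero hb h'
    · have h1 : ∀ c : Ch k y i0, (chartMaps k y).map (hT k y (hy i0))
          ((chartEquiv k y (hy i0)).symm c) = algebraMap (Ch k y i0) K c := by
        intro c
        have := coe_chartEquiv k y (hy i0) (by rw [ev1_T]; exact hy i0)
          ((chartEquiv k y (hy i0)).symm c)
        rw [RingEquiv.apply_symm_apply] at this
        exact this.symm
      rw [h1, h1, div_mul_cancel₀]
      intro h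
      rw [map_eq_zero_iff _ (IsFractionRing.injective (Ch k y i0) K)] at h
      exact nonZeroDivisors.ne_zero hb h
  obtain ⟨E, hE⟩ := exists_fieldEquiv (chartMaps k y) (hT k y (hy i0)) h0
  refine ⟨E, fun x => ?_⟩
  have hx : x ∈ ⨆ i : I, Proj.basicOpen (gr k y) (T k y i) := by rw [hcov]; trivial
  obtain ⟨⟨i, hi⟩, hxi⟩ := TopologicalSpace.Opens.mem_iSup.mp hx
  obtain ⟨p, hp, hz⟩ := exists_stalk_prime (hT k y (hy i)) x hxi
  refine ⟨i, hi, p.comap ((chartEquiv k y (hy i)).symm.toRingHom), hp.comap _, fun z => ?_⟩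
  have h1 : ∀ a : Away (gr k y) (hT k y (hy i)).el,
      E (rho (hT k y (hy i)) a) = (chartEquiv k y (hy i) a : Ch k y i) := by
    intro a
    rw [hE]
    exact (coe_chartEquiv k y (hy i) (by rw [ev1_T]; exact hy i) a).symm
  have h2 := hz (E.symm z)
  have h3 : (∃ s : (Proj (gr k y)).presheaf.stalk x,
      E (algebraMap ((Proj (gr k y)).presheaf.stalk x) (Proj (gr k y)).functionField s) = z) ↔
      (∃ s : (Proj (gr k y)).presheaf.stalk x,
      algebraMap ((Proj (gr k y)).presheaf.stalk x) (Proj (gr k y)).functionField s =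
        E.symm z) := by
    constructor
    · rintro ⟨s, hs⟩
      exact ⟨s, by rw [← hs, RingEquiv.symm_apply_apply]⟩
    · rintro ⟨s, hs⟩
      exact ⟨s, by rw [hs, RingEquiv.apply_symm_apply]⟩
  rw [h3, h2]
  constructor
  · rintro ⟨a, b, hb, hab⟩
    refine ⟨chartEquiv k y (hy i) a, chartEquiv k y (hy i) b, ?_, ?_⟩
    · rw [Ideal.mem_comap]
      intro h
      apply hb
      have : (chartEquiv k y (hy i)).symm (chartEquiv k y (hy i) b) ∈ p := h
      rwa [RingEquiv.symm_apply_apply] at this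
    · rw [← h1, ← h1, ← hab, map_mul, RingEquiv.apply_symm_apply]
  · rintro ⟨a, b, hb, hab⟩
    refine ⟨(chartEquiv k y (hy i)).symm a, (chartEquiv k y (hy i)).symm b, hb, ?_⟩
    apply E.injective
    rw [map_mul, RingEquiv.apply_symm_apply, h1, h1, RingEquiv.apply_symm_apply,
      RingEquiv.apply_symm_apply, hab]

/-- A unit of the chart, up to squares, is a unit of the stalk, up to squares. -/
theorem exists_theta_unitSq [IsIntegral (Proj (gr k y))] (I : Set (Fin (M + 1)))
    (hI : I.Nonempty) (hy : ∀ i, y i ≠ 0)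
    (hcov : ⨆ i : I, Proj.basicOpen (gr k y) (T k y i) = ⊤)
    (hfr : ∀ i ∈ I, IsFractionRing (Ch k y i) K) :
    ∃ θ : (Proj (gr k y)).functionField ≃+* K,
      ∀ a : K, (∀ i ∈ I, ∃ (u : (Ch k y i)ˣ) (c : K), c ≠ 0 ∧ a = (u : Ch k y i) * c ^ 2) →
        Pool.Agent.PI.UnitSq (Proj (gr k y)) (θ.symm a) := by
  obtain ⟨θ, hθ⟩ := exists_theta k y I hI hy hcov hfr
  refine ⟨θ, fun a ha x => ?_⟩
  obtain ⟨i, hi, p, hp, hz⟩ := hθ x
  obtain ⟨u, c, hc, hac⟩ := ha i hi
  have h1p : (1 : Ch k y i) ∉ p := fun h => hp.ne_top ((Ideal.eq_top_iff_one _).mpr h)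
  obtain ⟨s, hs⟩ := (hz ((u : Ch k y i) : K)).mpr ⟨u, 1, h1p, by simp⟩
  obtain ⟨t, ht⟩ := (hz (((u⁻¹ : (Ch k y i)ˣ) : Ch k y i) : K)).mpr
    ⟨((u⁻¹ : (Ch k y i)ˣ) : Ch k y i), 1, h1p, by simp⟩
  have hinj : Function.Injective
      (algebraMap ((Proj (gr k y)).presheaf.stalk x) (Proj (gr k y)).functionField) :=
    IsFractionRing.injective _ _
  have huu : (((u : Ch k y i) : K)) * (((u⁻¹ : (Ch k y i)ˣ) : Ch k y i) : K) = 1 := by
    rw [← Subalgebra.coe_mul, u.mul_inv, Subalgebra.coe_one]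
  have hst : s * t = 1 := by
    apply hinj
    apply θ.injective
    rw [map_mul, map_mul, hs, ht, huu, map_one, map_one]
  refine ⟨⟨s, t, hst, by rw [mul_comm]; exact hst⟩, θ.symm c, ?_, ?_⟩
  · rw [Ne, map_eq_zero_iff _ θ.symm.injective]; exact hc
  · apply θ.injective
    rw [map_mul, map_pow, RingEquiv.apply_symm_apply, RingEquiv.apply_symm_apply]
    show a = θ (algebraMap _ _ s) * c ^ 2
    rw [hs]; exact hac

end Pool.Agent.Lib.MP_43d240_ag.H21
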