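import Mathlib
import Pool.Agent.Lib.MP_43d240_ag.H21.ShellFinal
import Pool.Agent.Lib.MP_43d240_ag.H21.Model

/-!
# F2 assembly: from field data to the geometric statement
-/

set_option linter.all false
set_option autoImplicit false

namespace Pool.Agent.Lib.MP_43d240_ag.H21

open FRZ AlgebraicGeometry CategoryTheory Pool.Agent.PI

/-- The output of SHELL: scheme with the geometric properties, function field `K`, and transfer of
`unit times square`. -/
def ShellStatement : Prop :=
  ∀ (k K : Type) [Field k] [Field K] [Algebra k K] (M : ℕ) (y : Fin (M + 1) → K),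
    (∀ i, y i ≠ 0) → ∀ I : Set (Fin (M + 1)), I.Nonempty → Covers k y I →
    (∀ i ∈ I, Algebra.Smooth k (Ch k y i)) →
    (∀ i ∈ I, ringKrullDim (Ch k y i) = (((3 : ℕ) : ℕ∞) : WithBot ℕ∞)) →
    (∀ i ∈ I, IsFractionRing (Ch k y i) K) →
    ∃ (X : Scheme.{0}) (_ : IsIntegral X) (p : X ⟶ Spec (CommRingCat.of k)), IsModel k X p ∧
      ∃ θ : X.functionField ≃+* K,
        ∀ a : K, (∀ i ∈ I, ∃ (u : (Ch k y i)ˣ) (c : K), c ≠ 0 ∧ a = (u : Ch k y i) * c ^ 2) →
          UnitSq X (θ.symm a)

lemma covers_univ (k : Type) {K : Type} [Field k] [Field K] [Algebra k K] {M : ℕ}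
    (y : Fin (M + 1) → K) : Covers k y Set.univ := by
  intro j
  refine ⟨0, ?_⟩
  rw [pow_zero, mul_one, zero_add, pow_one]
  exact Submodule.subset_span ⟨j, trivial, rfl⟩

theorem geo_of_model (hS : ShellStatement) (hM : ModelStatement) : GeoStatement := by
  intro k _ _ _ f hf hgp
  obtain ⟨K, _, _, M, y, hy, hsm, hdim, hfr, ψ, r, hψ, hr, hgen, husq⟩ := hM k f hf hgp
  obtain ⟨X, hX, p, hp, θ, hθ⟩ := hS k K M y hy Set.univ Set.univ_nonempty (covers_univ k y)
    (fun i _ => hsm i) (fun i _ => by rw [hdim i]; rfl) (fun i _ => hfr i)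
  refine ⟨X, hX, p, hp, θ.symm.toRingHom.comp ψ, fun i => θ.symm (r i), ?_, ?_, ?_, ?_⟩
  · exact θ.symm.injective.comp hψ
  · intro j l
    show θ.symm (r (j, l)) ^ 2 * θ.symm (ψ _) = θ.symm (ψ _)
    rw [← map_pow, ← map_mul, hr]
  · intro L h1 h2
    have h3 : L.comap (θ.symm : K →+* X.functionField) = ⊤ :=
      hgen _ (fun a => h1 a) (fun i => h2 i)
    rw [eq_top_iff]
    rintro z -
    have : θ z ∈ L.comap (θ.symm : K →+* X.functionField) := by rw [h3]; trivial
    rw [Subfield.mem_comap] at this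
    simpa using this
  · intro i
    exact hθ _ (fun j _ => husq i j)

end Pool.Agent.Lib.MP_43d240_ag.H21
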