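import Mathlib
import Pool.Agent.Lib.MP_43d240_ag.H21.Geo
import Pool.Agent.Lib.MP_43d240_ag.FRZ.H32.Shell1

/-!
# SHELL: the theorem
-/

set_option linter.all false
set_option autoImplicit false

namespace Pool.Agent.Lib.MP_43d240_ag.H21

open FRZ AlgebraicGeometry CategoryTheory Pool.Agent.PI

theorem shell : ShellStatement := by
  intro k K _ _ _ M y hy I hI hcov hsm hdim hfr
  have hint : IsIntegral (Proj (gr k y)) := isIntegral_PX hy
  have hcov' := iSup_basicOpen_of_covers hcov
  obtain ⟨θ, hθ⟩ := exists_theta_unitSq k y I hI hy hcov' hfr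
  refine ⟨Proj (gr k y), hint, str k y, ?_, θ, hθ⟩
  exact {
    smooth := smooth_str k y I hy hcov' hsm
    proper := (inferInstance : IsProper (strX k y))
    proj := ⟨M, fun {_} => closed_clause k y⟩
    dim := krullDim_Proj k y I hI hy hcov' _ hdim }

theorem geo (hM : ModelStatement) : GeoStatement := geo_of_model shell hM

end Pool.Agent.Lib.MP_43d240_ag.H21
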